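import Mathlib

/-! An open set of Hoelder functions whose graphs have Assouad dimension below two. -/

namespace Pool.Agent.H.MP_68e822_an

open Set Metric Filter Topology
open scoped ENNReal NNReal

/-- the unit interval -/
abbrev I := Icc (0 : ℝ) 1

/-- pairs of bounded functions, with the sum of the two sup norms -/
abbrev Amb := WithLp 1 (lp (fun _ : I => ℝ) ∞ × lp (fun _ : I × I => ℝ) ∞)

/-- the space of `ω`-continuous functions: pairs consisting of a bounded function and its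
bounded difference quotient -/
def Cw (ω : ℝ → ℝ) : Set Amb :=
  {p | ∀ x y : I, p.snd (x, y) = (p.fst x - p.fst y) / ω |x.1 - y.1|}

/-- the plane -/
abbrev P := EuclideanSpace ℝ (Fin 2)

/-- the graph -/
def graph (p : Amb) : Set P := range fun x : I => !₂[x.1, p.fst x]

/-- largest number of disjoint closed balls of radius `r` centred in `A` -/
noncomputable def packN (r : ℝ) (A : Set P) : ℕ∞ :=
  ⨆ (S : Finset P) (_ : (S : Set P) ⊆ A)
    (_ : (S : Set P).Pairwise fun x y => Disjoint (closedBall x r) (closedBall y r)), (S.card : ℕ∞)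

/-- Assouad dimension -/
noncomputable def dimA (F : Set P) : ℝ≥0∞ :=
  ⨅ (β : ℝ≥0) (_ : ∃ C : ℝ, 0 < C ∧ ∀ R r : ℝ, 0 < r → r < R → ∀ x ∈ F,
    (packN r (ball x R ∩ F) : ℝ≥0∞) ≤ ENNReal.ofReal (C * (R / r) ^ (β : ℝ))), (β : ℝ≥0∞)

/-- Assouad spectrum -/
noncomputable def dimS (θ : ℝ) (F : Set P) : ℝ≥0∞ :=
  ⨅ (β : ℝ≥0) (_ : ∃ C : ℝ, 0 < C ∧ ∀ r : ℝ, 0 < r → r < 1 → ∀ x ∈ F,
    (packN r (ball x (r ^ θ) ∩ F) : ℝ≥0∞) ≤ ENNReal.ofReal (C * (r ^ (θ - 1)) ^ (β : ℝ))),
    (β : ℝ≥0∞)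

/-- concave modulus of continuity -/
def IsMod (ω : ℝ → ℝ) : Prop :=
  MonotoneOn ω (Icc 0 1) ∧ (∀ t ∈ Ioc (0 : ℝ) 1, 0 < ω t) ∧ ω 0 = 0 ∧
    Tendsto ω (𝓝[>] 0) (𝓝 0) ∧ ConcaveOn ℝ (Icc 0 1) ω

theorem isMod_sqrt : IsMod Real.sqrt :=
  ⟨fun _ _ _ _ h => Real.sqrt_le_sqrt h, fun _ ht => Real.sqrt_pos.2 ht.1, Real.sqrt_zero,
    by simpa using (Real.continuous_sqrt.tendsto 0).mono_left nhdsWithin_le_nhds,
    Real.strictConcaveOn_sqrt.concaveOn.subset (fun _ h => h.1) (convex_Icc 0 1)⟩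

theorem sep {ι : Type} (T : Finset ι) (v : ι → ℝ) {a L r : ℝ} (hr : 0 < r) (hL : 0 ≤ L)
    (h1 : ∀ t ∈ T, a ≤ v t ∧ v t ≤ a + L) (h2 : ∀ s ∈ T, ∀ t ∈ T, s ≠ t → r < |v s - v t|) :
    (T.card : ℝ) ≤ L / r + 1 := by
  have : T.card ≤ (Finset.range (⌊L / r⌋₊ + 1)).card := by
    refine Finset.card_le_card_of_injOn (fun t => ⌊(v t - a) / r⌋₊) (fun t ht => ?_) ?_
    · rw [Finset.coe_range, mem_Iio, Nat.lt_succ_iff]
      refine Nat.floor_le_floor ?_
      gcongr
      linarith [(h1 t ht).2]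
    · intro s hs t ht hst
      by_contra h
      have h3 := h2 s hs t ht h
      have a1 := Nat.floor_le (div_nonneg (sub_nonneg.2 (h1 s hs).1) hr.le)
      have a2 := Nat.lt_floor_add_one ((v s - a) / r)
      have a3 := Nat.floor_le (div_nonneg (sub_nonneg.2 (h1 t ht).1) hr.le)
      have a4 := Nat.lt_floor_add_one ((v t - a) / r)
      simp only at hst
      rw [hst] at a1 a2
      rw [le_div_iff₀ hr] at a1 a3
      rw [div_lt_iff₀ hr] at a2 a4
      exact absurd h3 (not_lt.2 (abs_le.2 ⟨by linarith, by linarith⟩))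
  rw [Finset.card_range] at this
  have h4 := Nat.floor_le (div_nonneg hL hr.le)
  calc (T.card : ℝ) ≤ (⌊L / r⌋₊ + 1 : ℕ) := by exact_mod_cast this
    _ ≤ _ := by push_cast; linarith

/-- column index -/
noncomputable def col (m : ℕ) (s : I) : ℕ := ⌊100 ^ m * s.1⌋₊

theorem col_succ (m : ℕ) (s : I) : col (m + 1) s / 100 = col m s := by
  rw [col, col, ← Nat.floor_div_natCast]
  congr 1
  push_cast
  ring

theorem col_bd (m : ℕ) (s : I) : (col m s : ℝ) ≤ 100 ^ m * s.1 ∧ 100 ^ m * s.1 < col m s + 1 :=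
  ⟨Nat.floor_le (mul_nonneg (by positivity) s.2.1), Nat.lt_floor_add_one _⟩

theorem col_near {m : ℕ} {s t : I} (h : col m s = col m t) : |s.1 - t.1| ≤ (1 / 100) ^ m := by
  have h1 := col_bd m s
  have h2 := col_bd m t
  rw [h] at h1
  have h3 : (0 : ℝ) < 100 ^ m := by positivity
  rw [one_div, inv_pow, ← one_div, le_div_iff₀ h3, ← abs_of_pos h3, ← abs_mul, abs_le]
  constructor <;> nlinarith [h1.1, h1.2, h2.1, h2.2]

theorem sqrt_pow (m : ℕ) : √((1 / 100) ^ m) = (1 / 10) ^ m := by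
  rw [show ((1 : ℝ) / 100) ^ m = ((1 / 10) ^ m) ^ 2 by rw [← pow_mul, mul_comm, pow_mul]; norm_num,
    Real.sqrt_sq (by positivity)]

theorem count (g : I → ℝ) {K : ℝ} (hK : 0 ≤ K) (hH : ∀ x y, |g x - g y| ≤ K * √|x.1 - y.1|)
    (hP : ∀ m j x y, col (m + 1) x = 100 * j → col (m + 1) y = 100 * j + 50 →
      (1 / 5) * (1 / 10) ^ m ≤ g y - g x) {R r : ℝ} (hr : 0 < r) (hR : r < R) (x₀ : I)
    (S : Finset I) (h1 : ∀ s ∈ S, |s.1 - x₀.1| < R ∧ |g s - g x₀| < R)
    (h2 : ∀ s ∈ S, ∀ t ∈ S, s ≠ t → |s.1 - t.1| ≤ r → r < |g s - g t|) :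
    ∃ M : ℕ, (100 : ℝ) ^ M ≤ 10000 * (R / r) ∧ (S.card : ℝ) ≤ 3 * (2 * K + 3) * 9900 ^ M := by
  classical
  have hR0 := hr.trans hR
  have e1 : ∃ p : ℕ, (1 / 100 : ℝ) ^ p ≤ r :=
    (exists_pow_lt_of_lt_one hr (by norm_num)).imp fun _ h => h.le
  have e2 : ∃ q : ℕ, (1 / 100 : ℝ) ^ (q + 1) < R :=
    (exists_pow_lt_of_lt_one hR0 (show (1 / 100 : ℝ) < 1 by norm_num)).imp fun q h =>
      (pow_le_pow_of_le_one (by norm_num) (by norm_num) q.le_succ).trans_lt h
  set p := Nat.find e1 with hp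
  set q := Nat.find e2 with hq
  have p1 : (1 / 100 : ℝ) ^ p ≤ r := Nat.find_spec e1
  have q1 : (1 / 100 : ℝ) ^ (q + 1) < R := Nat.find_spec e2
  have q2 : q ≠ 0 → R ≤ (1 / 100) ^ q := fun h => by
    have := Nat.find_min e2 (show q - 1 < q by omega)
    rwa [show q - 1 + 1 = q by omega, not_lt] at this
  have hpq : q ≤ p := by
    by_contra h
    have h3 := q2 (by omega)
    have h4 : (1 / 100 : ℝ) ^ q ≤ (1 / 100) ^ p :=
      pow_le_pow_of_le_one (by norm_num) (by norm_num) (by omega)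
    linarith
  obtain ⟨M, hM⟩ := Nat.exists_eq_add_of_le hpq
  have hrp : 1 / r ≤ 100 ^ p := by
    rw [one_div, inv_pow] at p1
    rw [one_div]
    exact inv_le_of_inv_le₀ (by positivity) p1
  have step : ∀ (m c : ℕ), (∀ j, ((S.image (col (m + 1))).filter (· / 100 = j)).card ≤ c) →
      (S.image (col (m + 1))).card ≤ c * (S.image (col m)).card := by
    intro m c h
    have := Finset.card_le_mul_card_image (f := (· / 100)) (S.image (col (m + 1))) c
      fun j _ => h j
    rwa [Finset.image_image, show (· / 100) ∘ col (m + 1) = col m from funext (col_succ m)] at this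
  have sub : ∀ m j, (S.image (col (m + 1))).filter (· / 100 = j) ⊆
      Finset.Ico (100 * j) (100 * j + 100) := fun m j i hi => by
    have := (Finset.mem_filter.1 hi).2
    rw [Finset.mem_Ico]
    omega
  have s100 : ∀ m, (S.image (col (m + 1))).card ≤ 100 * (S.image (col m)).card := fun m =>
    step m _ fun j => (Finset.card_le_card (sub m j)).trans (by simp)
  have s99 : ∀ m, m < 2 * q → (S.image (col (m + 1))).card ≤ 99 * (S.image (col m)).card := by
    intro m hm
    refine step m _ fun j => ?_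
    refine Nat.le_of_lt_succ ((Finset.card_lt_card ⟨sub m j, fun h => ?_⟩).trans_eq (by simp))
    obtain ⟨x, hx, hx2⟩ := Finset.mem_image.1
      (Finset.mem_filter.1 (h (show 100 * j ∈ _ by simp))).1
    obtain ⟨y, hy, hy2⟩ := Finset.mem_image.1
      (Finset.mem_filter.1 (h (show 100 * j + 50 ∈ _ by simp))).1
    have h3 := hP m j x y hx2 hy2
    have h4 := abs_lt.1 (h1 x hx).2
    have h5 := abs_lt.1 (h1 y hy).2
    have h6 := q2 (by omega)
    have h7 : (1 / 100 : ℝ) ^ q ≤ (1 / 10) ^ (m + 1) := by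
      rw [show (1 / 100 : ℝ) = (1 / 10) ^ 2 by norm_num, ← pow_mul]
      exact pow_le_pow_of_le_one (by norm_num) (by norm_num) hm
    rw [pow_succ] at h7
    linarith
  have s0 : (S.image (col q)).card ≤ 3 := by
    refine (Finset.card_le_card (t := Finset.Icc (col q x₀ - 1) (col q x₀ + 1)) ?_).trans
      (by rw [Nat.card_Icc]; omega)
    intro i hi
    obtain ⟨s, hs, rfl⟩ := Finset.mem_image.1 hi
    have h3 : |s.1 - x₀.1| ≤ (1 / 100) ^ q := by
      by_cases h : q = 0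
      · rw [h, pow_zero, abs_le]
        constructor <;> linarith [s.2.1, s.2.2, x₀.2.1, x₀.2.2]
      · exact (h1 s hs).1.le.trans (q2 h)
    have h4 : (0 : ℝ) < 100 ^ q := by positivity
    rw [one_div, inv_pow, ← one_div, le_div_iff₀ h4, ← abs_of_pos h4, ← abs_mul, abs_le] at h3
    have a1 := col_bd q s
    have a2 := col_bd q x₀
    have a3 : col q s < col q x₀ + 2 := by
      exact_mod_cast (show (col q s : ℝ) < col q x₀ + 2 by nlinarith)
    have a4 : col q x₀ < col q s + 2 := by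
      exact_mod_cast (show (col q x₀ : ℝ) < col q s + 2 by nlinarith)
    rw [Finset.mem_Icc]
    omega
  have n1 : ∀ i, i ≤ q → (S.image (col (q + i))).card ≤ 3 * 99 ^ i := by
    intro i hi
    induction i with
    | zero => simpa using s0
    | succ i ih =>
      refine (s99 (q + i) (by omega)).trans ?_
      have := ih (by omega)
      rw [pow_succ]
      omega
  have n2 : ∀ i, (S.image (col (q + q + i))).card ≤ 3 * 99 ^ q * 100 ^ i := by
    intro i
    induction i with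
    | zero => simpa using n1 q le_rfl
    | succ i ih =>
      refine (s100 (q + q + i)).trans ?_
      rw [pow_succ, ← mul_assoc]
      omega
  have fib : ∀ c : ℝ, (∀ j ∈ S.image (col p), ((S.filter (col p · = j)).card : ℝ) ≤ c) →
      (S.card : ℝ) ≤ (S.image (col p)).card * c := by
    intro c h
    rw [Finset.card_eq_sum_card_image (col p) S]
    push_cast
    exact (Finset.sum_le_card_nsmul _ _ _ h).trans_eq (nsmul_eq_mul _ _)
  have hs : ∀ j, ∀ s ∈ S.filter (col p · = j), ∀ t ∈ S.filter (col p · = j), s ≠ t →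
      r < |g s - g t| := by
    intro j s hs t ht hst
    rw [Finset.mem_filter] at hs ht
    exact h2 s hs.1 t ht.1 hst ((col_near (hs.2.trans ht.2.symm)).trans p1)
  refine ⟨M, ?_, ?_⟩
  · by_cases h : p = 0
    · rw [show M = 0 by omega, pow_zero]
      linarith [(one_lt_div hr).2 hR]
    · have h3 := Nat.find_min e1 (show p - 1 < p by omega)
      rw [not_le] at h3
      obtain ⟨k, hk⟩ : ∃ k, p = k + 1 := ⟨p - 1, by omega⟩
      rw [show p - 1 = k by omega] at h3
      have h4 : (100 : ℝ) ^ M * (1 / 100) ^ k = 10000 * (1 / 100) ^ (q + 1) := by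
        have : (100 : ℝ) ^ (k + 1) = 100 ^ (q + M) := by rw [← hk, hM]
        rw [one_div, inv_pow, inv_pow]
        field_simp
        rw [pow_succ, pow_add] at this
        rw [pow_succ]
        linarith
      rw [← mul_div_assoc, le_div_iff₀ hr]
      have h5 : (0 : ℝ) < 100 ^ M := by positivity
      nlinarith
  rcases lt_or_ge p (q + q) with h | h
  · refine (fib (2 * R / r + 1) fun j _ => sep _ g (a := g x₀ - R) hr (by positivity)
      (fun t ht => ?_) (hs j)).trans ?_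
    · have := abs_lt.1 (h1 t (Finset.mem_filter.1 ht).1).2
      constructor <;> linarith
    · have h3 : ((S.image (col p)).card : ℝ) ≤ 3 * 99 ^ M := by
        rw [hM]; exact_mod_cast n1 M (by omega)
      have h4 : R / r ≤ 100 ^ M := by
        rw [div_eq_mul_one_div]
        calc R * (1 / r) ≤ (1 / 100) ^ q * 100 ^ p := by gcongr; exact q2 (by omega)
          _ = 100 ^ M := by rw [hM, pow_add, ← mul_assoc, ← mul_pow]; norm_num
      have h5 : (1 : ℝ) ≤ 100 ^ M := one_le_pow₀ (by norm_num)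
      calc _ ≤ 3 * 99 ^ M * ((2 * K + 3) * 100 ^ M : ℝ) := by
            gcongr
            rw [mul_div_assoc]
            nlinarith
        _ = _ := by rw [show (9900 : ℝ) = 99 * 100 by norm_num, mul_pow]; ring
  · obtain ⟨i, hi⟩ := Nat.exists_eq_add_of_le h
    refine (fib (2 * (K * (1 / 10) ^ p) / r + 1) fun j hj => ?_).trans ?_
    · obtain ⟨t₀, -, rfl⟩ := Finset.mem_image.1 hj
      refine sep _ g (a := g t₀ - K * (1 / 10) ^ p) hr (by positivity) (fun t ht => ?_) (hs _)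
      have h3 := hH t t₀
      have h4 := Real.sqrt_le_sqrt (col_near (Finset.mem_filter.1 ht).2)
      rw [sqrt_pow] at h4
      have h5 := abs_le.1 (h3.trans (mul_le_mul_of_nonneg_left h4 hK))
      constructor <;> linarith
    · have h3 : ((S.image (col p)).card : ℝ) ≤ 3 * 99 ^ q * 100 ^ i := by
        rw [hi]; exact_mod_cast n2 i
      have h4 : (1 / 10 : ℝ) ^ p / r ≤ 100 ^ q * 99 ^ i := by
        rw [div_eq_mul_one_div]
        calc (1 / 10 : ℝ) ^ p * (1 / r) ≤ (1 / 10) ^ p * 100 ^ p := by gcongr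
          _ = 100 ^ q * 10 ^ i := by
            rw [← mul_pow, hi, pow_add, pow_add, ← mul_pow]; norm_num
          _ ≤ _ := by gcongr; norm_num
      have h5 : (1 : ℝ) ≤ 100 ^ q * 99 ^ i :=
        one_le_mul_of_one_le_of_one_le (one_le_pow₀ (by norm_num)) (one_le_pow₀ (by norm_num))
      calc _ ≤ 3 * 99 ^ q * 100 ^ i * ((2 * K + 3) * (100 ^ q * 99 ^ i) : ℝ) := by
            gcongr
            rw [mul_div_assoc, mul_div_assoc]
            nlinarith
        _ = _ := by
            rw [show M = q + i by omega, show (9900 : ℝ) = 99 * 100 by norm_num, mul_pow, pow_add,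
              pow_add]
            ring

/-- distance to the nearest integer -/
noncomputable def φ (t : ℝ) : ℝ := |t - round t|

theorem φ_lip (x y : ℝ) : |φ x - φ y| ≤ |x - y| := by
  have h : ∀ x y : ℝ, φ x ≤ |x - y| + φ y := fun x y =>
    (round_le x (round y)).trans (abs_sub_le x y _)
  have h1 := h x y
  have h2 := h y x
  rw [abs_sub_comm] at h2
  exact abs_le.2 ⟨by linarith, by linarith⟩

theorem φ_bd (x : ℝ) : 0 ≤ φ x ∧ φ x ≤ 1 / 2 := ⟨abs_nonneg _, abs_sub_round x⟩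

/-- the lacunary function -/
noncomputable def f (x : ℝ) : ℝ := ∑' n : ℕ, (1 / 10) ^ n * φ (100 ^ n * x)

theorem geo : HasSum (fun n : ℕ => (1 / 10 : ℝ) ^ n * (1 / 2)) (5 / 9) := by
  have := (hasSum_geometric_of_lt_one (r := (1 / 10 : ℝ)) (by norm_num)
    (by norm_num)).mul_right (1 / 2)
  rwa [show ((1 : ℝ) - 1 / 10)⁻¹ * (1 / 2) = 5 / 9 by norm_num] at this

theorem f_bd (x : ℝ) : ‖f x‖ ≤ 5 / 9 :=
  tsum_of_norm_bounded geo fun n => by
    rw [Real.norm_eq_abs, abs_mul, abs_of_pos (by positivity), abs_of_nonneg (φ_bd _).1]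
    gcongr
    exact (φ_bd _).2

theorem f_split (x y : ℝ) (k : ℕ) : |f y - f x - ∑ n ∈ Finset.range k,
    (1 / 10) ^ n * (φ (100 ^ n * y) - φ (100 ^ n * x))| ≤ (1 / 10) ^ k * (5 / 9) := by
  have hs : ∀ x : ℝ, Summable fun n : ℕ => (1 / 10 : ℝ) ^ n * φ (100 ^ n * x) := fun x =>
    Summable.of_nonneg_of_le (fun n => mul_nonneg (by positivity) (φ_bd _).1)
      (fun n => by gcongr; exact (φ_bd _).2) geo.summable
  have h := ((hs y).sub (hs x)).sum_add_tsum_nat_add k
  rw [(hs y).tsum_sub (hs x)] at h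
  simp only [mul_sub]
  rw [f, f, ← h, add_sub_cancel_left, ← Real.norm_eq_abs]
  refine tsum_of_norm_bounded (geo.mul_left _) fun n => ?_
  rw [← mul_sub, Real.norm_eq_abs, abs_mul, abs_of_pos (by positivity), pow_add, mul_comm _ (_ ^ k),
    mul_assoc]
  gcongr
  rw [abs_le]
  constructor <;> linarith [φ_bd (100 ^ (n + k) * y), φ_bd (100 ^ (n + k) * x)]

theorem f_low (x y : ℝ) (k : ℕ) : |∑ n ∈ Finset.range k,
    (1 / 10) ^ n * (φ (100 ^ n * y) - φ (100 ^ n * x))| ≤ 10 ^ k / 9 * |y - x| := by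
  induction k with
  | zero => simp
  | succ k ih =>
    rw [Finset.sum_range_succ]
    refine (abs_add_le _ _).trans ?_
    have h1 := φ_lip (100 ^ k * y) (100 ^ k * x)
    rw [← mul_sub, abs_mul, abs_of_pos (by positivity : (0 : ℝ) < 100 ^ k)] at h1
    have h2 : |(1 / 10 : ℝ) ^ k * (φ (100 ^ k * y) - φ (100 ^ k * x))| ≤ 10 ^ k * |y - x| := by
      rw [abs_mul, abs_of_pos (by positivity)]
      calc _ ≤ (1 / 10 : ℝ) ^ k * (100 ^ k * |y - x|) := by gcongr
        _ = _ := by rw [← mul_assoc, ← mul_pow]; norm_num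
    rw [pow_succ]
    linarith

theorem f_holder (x y : I) : |f y - f x| ≤ 2 * √|y.1 - x.1| := by
  rcases eq_or_ne y.1 x.1 with h | h
  · simp [h]
  have h0 : 0 < |y.1 - x.1| := abs_pos.2 (sub_ne_zero.2 h)
  obtain ⟨m, h1, h2⟩ := exists_nat_pow_near_of_lt_one h0 (by
    rw [abs_le]; constructor <;> linarith [x.2.1, x.2.2, y.2.1, y.2.2])
    (show (0 : ℝ) < 1 / 100 by norm_num) (by norm_num)
  have h3 := Real.sqrt_le_sqrt h1.le
  have h4 := Real.sqrt_le_sqrt h2
  rw [sqrt_pow] at h3 h4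
  have h5 := abs_le.1 (f_split x y (m + 1))
  have h6 := f_low x y (m + 1)
  have h7 : (10 : ℝ) ^ (m + 1) / 9 * |y.1 - x.1| ≤ 10 / 9 * √|y.1 - x.1| := by
    have e : (10 : ℝ) ^ m * (1 / 10) ^ m = 1 := by rw [← mul_pow]; norm_num
    calc _ = 10 ^ (m + 1) / 9 * (√|y.1 - x.1| * √|y.1 - x.1|) := by rw [Real.mul_self_sqrt h0.le]
      _ ≤ 10 ^ (m + 1) / 9 * ((1 / 10) ^ m * √|y.1 - x.1|) := by gcongr
      _ = 10 / 9 * (10 ^ m * (1 / 10) ^ m) * √|y.1 - x.1| := by ring
      _ = _ := by rw [e, mul_one]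
  have h8 := abs_le.1 (h6.trans h7)
  have h9 := Real.sqrt_nonneg |y.1 - x.1|
  exact abs_le.2 ⟨by linarith, by linarith⟩

theorem f_gap (m j : ℕ) (x y : I) (hx : col (m + 1) x = 100 * j)
    (hy : col (m + 1) y = 100 * j + 50) : 3 / 10 * (1 / 10) ^ m ≤ f y - f x := by
  have h0 : col m y = col m x := by rw [← col_succ m y, ← col_succ m x, hx, hy]; omega
  have h1 := abs_le.1 (f_split x y (m + 1))
  have h2 := f_low x y m
  have h3 : (10 : ℝ) ^ m / 9 * |y.1 - x.1| ≤ (1 / 10) ^ m / 9 := by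
    calc _ ≤ 10 ^ m / 9 * (1 / 100 : ℝ) ^ m := by gcongr; exact col_near h0
      _ = (10 * (1 / 100)) ^ m / 9 := by rw [mul_pow]; ring
      _ = _ := by norm_num
  have h4 := abs_le.1 (h2.trans h3)
  have a1 := col_bd (m + 1) x
  have a2 := col_bd (m + 1) y
  rw [hx, pow_succ] at a1
  rw [hy, pow_succ] at a2
  push_cast at a1 a2
  have b1 : φ (100 ^ m * x.1) ≤ 1 / 100 :=
    (round_le _ (j : ℤ)).trans (abs_le.2 ⟨by push_cast; linarith, by push_cast; linarith⟩)
  have b2 : 49 / 100 ≤ φ (100 ^ m * y.1) := by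
    rcases le_or_gt (round (100 ^ m * y.1)) j with h | h
    · have : (round (100 ^ m * y.1) : ℝ) ≤ j := by exact_mod_cast h
      exact le_trans (by linarith) (le_abs_self _)
    · have : (j : ℝ) + 1 ≤ round (100 ^ m * y.1) := by exact_mod_cast h
      exact le_trans (by linarith) (neg_le_abs _)
  rw [Finset.sum_range_succ, pow_succ] at h1
  have h5 : (0 : ℝ) < (1 / 10) ^ m := by positivity
  nlinarith

theorem main : ∃ β : ℝ≥0, β < 2 ∧ ∃ U : Set (Cw Real.sqrt), IsOpen U ∧ U.Nonempty ∧ ∀ p ∈ U,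
    ∃ C : ℝ, 0 < C ∧ ∀ R r : ℝ, 0 < r → r < R → ∀ x ∈ graph p,
      (packN r (ball x R ∩ graph p) : ℝ≥0∞) ≤ ENNReal.ofReal (C * (R / r) ^ (β : ℝ)) := by
  classical
  have hq : ∀ x y : I, ‖(f x - f y) / √|x.1 - y.1|‖ ≤ 2 := fun x y => by
    rw [norm_div, Real.norm_eq_abs, Real.norm_eq_abs, abs_of_nonneg (Real.sqrt_nonneg _)]
    exact div_le_of_le_mul₀ (Real.sqrt_nonneg _) (by norm_num) (f_holder y x)
  let p₀ : Cw Real.sqrt := ⟨WithLp.toLp 1 (⟨fun x => f x, memℓp_infty ⟨5 / 9, by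
    rintro _ ⟨x, rfl⟩; exact f_bd _⟩⟩, ⟨fun z => (f z.1 - f z.2) / √|z.1.1 - z.2.1|,
    memℓp_infty ⟨2, by rintro _ ⟨x, rfl⟩; exact hq _ _⟩⟩), fun _ _ => rfl⟩
  have hβ : 0 ≤ Real.logb 100 9900 := Real.logb_nonneg (by norm_num) (by norm_num)
  refine ⟨NNReal.mk _ hβ, ?_, ball p₀ (1 / 10), isOpen_ball, nonempty_ball.2 (by norm_num),
    fun p hp => ?_⟩
  · change Real.logb 100 9900 < 2
    rw [Real.logb_lt_iff_lt_rpow (by norm_num) (by norm_num)]
    norm_num
  have hd : ∀ x y : I, |p.1.fst x - p.1.fst y - (f x - f y)| ≤ 1 / 10 * √|x.1 - y.1| := by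
    intro x y
    rcases eq_or_ne x y with rfl | h
    · simp
    have h0 : 0 < √|x.1 - y.1| :=
      Real.sqrt_pos.2 (abs_pos.2 (sub_ne_zero.2 fun h' => h (Subtype.ext h')))
    have h1 := ((lp.lipschitzWith_one_eval ∞ (x, y)).dist_le_mul p.1.snd p₀.1.snd)
    have h2 := WithLp.dist_snd_le p.1 p₀.1
    have h3 : dist p.1 p₀.1 < 1 / 10 := hp
    rw [p.2, p₀.2, Real.dist_eq, ← sub_div, abs_div, abs_of_pos h0, div_le_iff₀ h0] at h1
    refine h1.trans ?_
    gcongr
    simp only [NNReal.coe_one, one_mul]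
    linarith
  refine ⟨3 * (2 * 3 + 3) * 10000 ^ Real.logb 100 9900, by positivity, ?_⟩
  rintro R r hr hR _ ⟨x₀, rfl⟩
  simp only [packN, ENat.toENNReal_iSup]
  refine iSup_le fun T => iSup₂_le fun hT1 hT2 => ?_
  have hi : Function.Injective fun x : I => (!₂[x.1, p.1.fst x] : P) := fun x y h =>
    Subtype.ext (by simpa using congrArg (fun z : P => z 0) h)
  obtain ⟨S, rfl⟩ := Finset.subset_set_image_iff.1
    (show (T : Set P) ⊆ (fun x : I => (!₂[x.1, p.1.fst x] : P)) '' univ from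
      fun z hz => by rw [image_univ]; exact (hT1 hz).2) |>.imp fun _ h => h.2
  have co : ∀ (x y : I) (i : Fin 2), |(!₂[x.1, p.1.fst x] : P) i - (!₂[y.1, p.1.fst y] : P) i| ≤
      dist (!₂[x.1, p.1.fst x] : P) !₂[y.1, p.1.fst y] := fun x y i => by
    rw [← Real.dist_eq]; exact PiLp.dist_apply_le _ _ i
  obtain ⟨M, h1, h2⟩ := count p.1.fst (K := 3) (by norm_num) (fun x y => by
      have h1 := abs_le.1 (hd x y)
      have h2 := abs_le.1 (f_holder y x)
      have h3 := Real.sqrt_nonneg |x.1 - y.1|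
      exact abs_le.2 ⟨by linarith, by linarith⟩)
    (fun m j x y hx hy => by
      have h0 : col m y = col m x := by rw [← col_succ m y, ← col_succ m x, hx, hy]; omega
      have h1 := abs_le.1 (hd y x)
      have h2 := f_gap m j x y hx hy
      have h3 := Real.sqrt_le_sqrt (col_near h0)
      rw [sqrt_pow] at h3
      linarith) hr hR x₀ S
    (fun s hs => by
      have h1 := mem_ball.1 (hT1 (Finset.mem_coe.2 (Finset.mem_image_of_mem _ hs))).1
      exact ⟨by simpa using (co s x₀ 0).trans_lt h1, by simpa using (co s x₀ 1).trans_lt h1⟩)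
    (fun s hs t ht hst h => by
      have h1 := (disjoint_closedBall_closedBall_iff hr.le hr.le).1
        (hT2 (Finset.mem_coe.2 (Finset.mem_image_of_mem _ hs))
          (Finset.mem_coe.2 (Finset.mem_image_of_mem _ ht)) (hi.ne hst))
      rw [EuclideanSpace.dist_eq, Real.lt_sqrt (by positivity)] at h1
      simp only [Fin.sum_univ_two, Real.dist_eq] at h1
      simp only [Matrix.cons_val_zero, Matrix.cons_val_one] at h1
      by_contra h2
      have h3 := abs_nonneg (s.1 - t.1)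
      have h4 := abs_nonneg (p.1.fst s - p.1.fst t)
      nlinarith)
  rw [Finset.card_image_of_injective _ hi, ENat.toENNReal_coe, ← ENNReal.ofReal_natCast]
  refine ENNReal.ofReal_le_ofReal (h2.trans ?_)
  have h3 : (9900 : ℝ) ^ M = (100 ^ M) ^ Real.logb 100 9900 := by
    rw [← Real.rpow_natCast 100, ← Real.rpow_mul (by norm_num), mul_comm,
      Real.rpow_mul (by norm_num), Real.rpow_logb (by norm_num) (by norm_num) (by norm_num),
      Real.rpow_natCast]
  rw [h3, mul_assoc _ (_ ^ _), NNReal.coe_mk,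
    ← Real.mul_rpow (by norm_num) (div_pos (hr.trans hR) hr).le]
  gcongr

theorem closed (ω : ℝ → ℝ) : IsClosed (Cw ω) := by
  simp only [Cw, ofPred_forall]
  refine isClosed_iInter fun x => isClosed_iInter fun y => isClosed_eq ?_ ?_
  · exact (lp.lipschitzWith_one_eval ∞ (x, y)).continuous.comp (WithLp.continuous_snd ..)
  · exact (((lp.lipschitzWith_one_eval ∞ x).continuous.comp (WithLp.continuous_fst ..)).sub
      ((lp.lipschitzWith_one_eval ∞ y).continuous.comp (WithLp.continuous_fst ..))).div_const _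

end Pool.Agent.H.MP_68e822_an
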